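import Pool.Agent.R186.NatTree

/-!
# The multi-pile one-or-all token game: a counterexample with 12 piles

The position with seven piles of size 5 and five piles of size 6 is an N-position, although its
number of odd piles, 7, lies in `S_12 = {0, 2, 4, 7, 9, 11}`.
-/

set_option autoImplicit false

namespace Pool.Agent.Results.MP_b8aaf5_co.TwelvePiles

open Pool.Agent.R186

/-- A move from the position `M` (a multiset of positive pile sizes) to `M'`: either a unimove (one
token is removed from a single pile `a`) or an allmove (there is a pile, and one token is removed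
from every pile).  Piles that become empty are discarded. -/
def Move (M M' : Multiset ℕ) : Prop :=
  (∃ a ∈ M, M' = ((a - 1) ::ₘ M.erase a).filter (0 < ·)) ∨
    (M ≠ 0 ∧ M' = (M.map (· - 1)).filter (0 < ·))

/-- `IsPWithin n M`: the player about to move from `M` loses, for games of at most `n` moves. -/
def IsPWithin : ℕ → Multiset ℕ → Prop
  | 0, _ => True
  | n + 1, M => ∀ M', Move M M' → ¬ IsPWithin n M'

/-- `M` is a P-position: the player about to move loses (a game from `M` has at most as many moves
as there are tokens; see `isP_iff` for the recursion). -/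
def IsP (M : Multiset ℕ) : Prop := IsPWithin M.sum M

/-- The number of odd piles. -/
def oddPiles (M : Multiset ℕ) : ℕ := (M.filter (fun a => Odd a)).card

/-- `j ∈ S_k`: for odd `k` the even numbers `j ≤ k`; for even `k` the even `j < k / 2` and the odd
`j` with `k / 2 < j ≤ k`. -/
def InS (k j : ℕ) : Prop :=
  j ≤ k ∧ if Odd k then Even j else (Even j ∧ 2 * j < k) ∨ (Odd j ∧ k < 2 * j)

theorem sum_filter_pos (M : Multiset ℕ) : (M.filter (0 < ·)).sum = M.sum := by
  induction M using Multiset.induction_on with
  | empty => simp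
  | cons a M ih =>
    by_cases h : 0 < a
    · rw [Multiset.filter_cons_of_pos _ h, Multiset.sum_cons, Multiset.sum_cons, ih]
    · rw [Multiset.filter_cons_of_neg _ h, Multiset.sum_cons, ih]
      omega

theorem sum_map_pred (M : Multiset ℕ) (hM : ∀ a ∈ M, 0 < a) :
    (M.map (· - 1)).sum + M.card = M.sum := by
  induction M using Multiset.induction_on with
  | empty => simp
  | cons a M ih =>
    have h1 := hM a (Multiset.mem_cons_self a M)
    have h2 := ih fun b hb => hM b (Multiset.mem_cons_of_mem hb)
    rw [Multiset.map_cons, Multiset.sum_cons, Multiset.sum_cons, Multiset.card_cons]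
    omega

theorem move_pos {M M' : Multiset ℕ} (h : Move M M') : ∀ a ∈ M', 0 < a := by
  rcases h with ⟨a, -, rfl⟩ | ⟨-, rfl⟩ <;> exact fun b hb => (Multiset.mem_filter.1 hb).2

theorem move_sum {M M' : Multiset ℕ} (hM : ∀ a ∈ M, 0 < a) (h : Move M M') : M'.sum < M.sum := by
  rcases h with ⟨a, ha, rfl⟩ | ⟨h0, rfl⟩
  · rw [sum_filter_pos, Multiset.sum_cons]
    have h1 := hM a ha
    have h2 : M.sum = a + (M.erase a).sum := by
      conv_lhs => rw [← Multiset.cons_erase ha]
      rw [Multiset.sum_cons]
    omega
  · rw [sum_filter_pos]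
    have h1 := sum_map_pred M hM
    have h2 : 0 < M.card := Multiset.card_pos.2 h0
    omega

theorem within_indep {M : Multiset ℕ} (hM : ∀ a ∈ M, 0 < a) :
    ∀ n m : ℕ, M.sum ≤ n → M.sum ≤ m → (IsPWithin n M ↔ IsPWithin m M) := by
  induction hs : M.sum using Nat.strong_induction_on generalizing M with
  | _ s ih =>
    intro n m hn hm
    have step : ∀ (M' : Multiset ℕ), Move M M' → ∀ a b, M'.sum ≤ a → M'.sum ≤ b →
        (IsPWithin a M' ↔ IsPWithin b M') := fun M' h a b ha hb => by
      have h1 := move_sum hM h
      exact ih M'.sum (by omega) (move_pos h) rfl a b ha hb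
    rcases n with _ | n
    · have h0 : M = 0 := by
        by_contra h
        obtain ⟨a, ha⟩ := Multiset.exists_mem_of_ne_zero h
        have h1 := Multiset.single_le_sum (fun _ _ => Nat.zero_le _) a ha
        have h2 := hM a ha
        omega
      subst h0
      have hno : ∀ M', ¬ Move 0 M' := by
        rintro M' (⟨a, ha, -⟩ | ⟨h, -⟩)
        · exact absurd ha (Multiset.notMem_zero a)
        · exact h rfl
      rcases m with _ | m
      · exact Iff.rfl
      · exact ⟨fun _ M' h => absurd h (hno M'), fun _ => trivial⟩
    · rcases m with _ | m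
      · have h0 : M = 0 := by
          by_contra h
          obtain ⟨a, ha⟩ := Multiset.exists_mem_of_ne_zero h
          have h1 := Multiset.single_le_sum (fun _ _ => Nat.zero_le _) a ha
          have h2 := hM a ha
          omega
        subst h0
        have hno : ∀ M', ¬ Move 0 M' := by
          rintro M' (⟨a, ha, -⟩ | ⟨h, -⟩)
          · exact absurd ha (Multiset.notMem_zero a)
          · exact h rfl
        exact ⟨fun _ => trivial, fun _ M' h => absurd h (hno M')⟩
      · constructor
        · intro h M' hM' h2
          have h1 := move_sum hM hM'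
          exact h M' hM' ((step M' hM' n m (by omega) (by omega)).2 h2)
        · intro h M' hM' h2
          have h1 := move_sum hM hM'
          exact h M' hM' ((step M' hM' n m (by omega) (by omega)).1 h2)

/-- The recursion for P-positions. -/
theorem isP_iff {M : Multiset ℕ} (hM : ∀ a ∈ M, 0 < a) :
    IsP M ↔ ∀ M', Move M M' → ¬ IsP M' := by
  have key : IsP M ↔ IsPWithin (M.sum + 1) M := within_indep hM _ _ le_rfl (Nat.le_succ _)
  rw [key]
  constructor
  · intro h M' hM' h2
    have h1 := move_sum hM hM'
    exact h M' hM' ((within_indep (move_pos hM') _ _ le_rfl (by omega)).1 h2)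
  · intro h M' hM' h2
    have h1 := move_sum hM hM'
    exact h M' hM' ((within_indep (move_pos hM') _ _ le_rfl (by omega)).2 h2)

/-! ### The certificate -/

/-- Positions with piles of size at most 6: the numbers of piles of size `1, …, 6`. -/
abbrev St : Type := ℕ × ℕ × ℕ × ℕ × ℕ × ℕ

/-- the multiset of piles -/
def toM (c : St) : Multiset ℕ :=
  Multiset.replicate c.1 1 + Multiset.replicate c.2.1 2 + Multiset.replicate c.2.2.1 3 +
    Multiset.replicate c.2.2.2.1 4 + Multiset.replicate c.2.2.2.2.1 5 +
      Multiset.replicate c.2.2.2.2.2 6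

/-- the list of the positions reachable in one move -/
def mvs : St → List St
  | (a, b, c, d, e, f) =>
    (bif Nat.beq a 0 then [] else [(a - 1, b, c, d, e, f)]) ++
    ((bif Nat.beq b 0 then [] else [(a + 1, b - 1, c, d, e, f)]) ++
    ((bif Nat.beq c 0 then [] else [(a, b + 1, c - 1, d, e, f)]) ++
    ((bif Nat.beq d 0 then [] else [(a, b, c + 1, d - 1, e, f)]) ++
    ((bif Nat.beq e 0 then [] else [(a, b, c, d + 1, e - 1, f)]) ++
    ((bif Nat.beq f 0 then [] else [(a, b, c, d, e + 1, f - 1)]) ++
    (bif Nat.beq (a + b + c + d + e + f) 0 then [] else [(b, c, d, e, f, 0)]))))))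

/-- code of a position -/
def enc : St → ℕ
  | (a, b, c, d, e, f) => a + 16 * b + 256 * c + 4096 * d + 65536 * e + 1048576 * f

/-- decoding -/
def dec (m : ℕ) : St :=
  (m % 16, m / 16 % 16, m / 256 % 16, m / 4096 % 16, m / 65536 % 16, m / 1048576)

open NatTree in
/-- P-positions forming a certificate (coded). -/
def cert : NatTree :=
  node (node (node (node (node (node (node (node leaf 0 leaf) 16 leaf) 18 (node (node leaf 20
    leaf) 22 leaf)) 24 (node (node (node leaf 26 leaf) 32 leaf) 34 (node leaf 36 leaf))) 38
    (node (node (node (node leaf 40 leaf) 42 leaf) 48 (node (node leaf 50 leaf) 64 leaf)) 66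
    (node (node (node leaf 68 leaf) 70 leaf) 84 (node leaf 86 leaf)))) 96 (node (node (node
    (node (node leaf 112 leaf) 128 leaf) 144 (node (node leaf 160 leaf) 305 leaf)) 307 (node
    (node (node leaf 309 leaf) 311 leaf) 337 (node leaf 528 leaf))) 530 (node (node (node (node
    leaf 532 leaf) 534 leaf) 560 (node (node leaf 562 leaf) 564 leaf)) 592 (node (node (node
    leaf 594 leaf) 596 leaf) 624 (node leaf 626 leaf))))) 784 (node (node (node (node (node
    (node leaf 786 leaf) 788 leaf) 790 (node (node leaf 792 leaf) 816 leaf)) 818 (node (node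
    (node leaf 820 leaf) 822 leaf) 848 (node leaf 850 leaf))) 852 (node (node (node (node leaf
    880 leaf) 882 leaf) 912 (node (node leaf 1104 leaf) 1106 leaf)) 4096 (node (node (node leaf
    4098 leaf) 4112 leaf) 4114 (node leaf 4128 leaf)))) 4144 (node (node (node (node (node leaf
    4160 leaf) 4162 leaf) 4176 (node (node leaf 4178 leaf) 4192 leaf)) 4208 (node (node (node
    leaf 4224 leaf) 4240 leaf) 4353 (node leaf 4355 leaf))) 4385 (node (node (node (node leaf
    4387 leaf) 4389 leaf) 4417 (node leaf 4419 leaf)) 4449 (node (node (node leaf 4481 leaf)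
    8192 leaf) 8194 (node leaf 8196 leaf)))))) 8208 (node (node (node (node (node (node (node
    leaf 8210 leaf) 8212 leaf) 8224 (node (node leaf 8226 leaf) 8228 leaf)) 8240 (node (node
    (node leaf 8242 leaf) 8256 leaf) 8258 (node leaf 8272 leaf))) 8288 (node (node (node (node
    leaf 8304 leaf) 8320 leaf) 8465 (node (node leaf 8467 leaf) 8469 leaf)) 8497 (node (node
    (node leaf 8499 leaf) 8529 leaf) 8561 (node leaf 8720 leaf)))) 8722 (node (node (node (node
    (node leaf 8724 leaf) 8752 leaf) 8754 (node (node leaf 8784 leaf) 8816 leaf)) 12320 (node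
    (node (node leaf 12322 leaf) 12324 leaf) 12352 (node leaf 12354 leaf))) 12384 (node (node
    (node (node leaf 12561 leaf) 12563 leaf) 12565 (node (node leaf 12593 leaf) 12595 leaf))
    12625 (node (node (node leaf 12800 leaf) 12802 leaf) 12804 (node leaf 12806 leaf))))) 12832
    (node (node (node (node (node (node leaf 12834 leaf) 12836 leaf) 12864 (node (node leaf
    12866 leaf) 12896 leaf)) 13312 (node (node (node leaf 13314 leaf) 13316 leaf) 13344 (node
    leaf 13346 leaf))) 13376 (node (node (node (node leaf 13824 leaf) 13826 leaf) 13856 (node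
    (node leaf 16384 leaf) 16400 leaf)) 16416 (node (node (node leaf 16432 leaf) 16448 leaf)
    16464 (node leaf 16480 leaf)))) 16496 (node (node (node (node (node leaf 16512 leaf) 16896
    leaf) 16912 (node (node leaf 16928 leaf) 16944 leaf)) 16960 (node (node (node leaf 16976
    leaf) 16992 leaf) 17408 (node leaf 17424 leaf))) 17440 (node (node (node (node leaf 17456
    leaf) 17472 leaf) 17920 (node leaf 17936 leaf)) 17952 (node (node (node leaf 18432 leaf)
    22016 leaf) 22032 (node leaf 356352 leaf))))))

def same : St → St → Bool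
  | (a, b, c, d, e, f), (a', b', c', d', e', f') =>
    Nat.beq a a' && (Nat.beq b b' && (Nat.beq c c' && (Nat.beq d d' && (Nat.beq e e' &&
      Nat.beq f f'))))

theorem same_eq {s t : St} (h : same s t = true) : s = t := by
  obtain ⟨a, b, c, d, e, f⟩ := s
  obtain ⟨a', b', c', d', e', f'⟩ := t
  simp only [same, Bool.and_eq_true, Nat.beq_eq] at h
  obtain ⟨rfl, rfl, rfl, rfl, rfl, rfl⟩ := h
  rfl

def inCert (s : St) : Bool := cert.mem (enc s) && same (dec (enc s)) s

/-- every move from a position of the certificate can be answered by a move into the certificate -/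
def certOk : Bool := cert.all fun m => (mvs (dec m)).all fun t => (mvs t).any fun u => inCert u

theorem certOk_true : certOk = true := by decide +kernel

/-! ### Soundness -/

theorem pos_toM (s : St) : ∀ a ∈ toM s, 0 < a := by
  intro a ha
  simp only [toM, Multiset.mem_add, Multiset.mem_replicate] at ha
  omega

theorem card_toM (a b c d e f : ℕ) : (toM (a, b, c, d, e, f)).card = a + b + c + d + e + f := by
  simp [toM]

theorem toM_eq_zero {a b c d e f : ℕ} (h : a + b + c + d + e + f = 0) :
    toM (a, b, c, d, e, f) = 0 := by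
  rw [← Multiset.card_eq_zero, card_toM, h]

/-- decompositions of `toM` -/
theorem toM1 (a b c d e f : ℕ) : toM (a + 1, b, c, d, e, f) = 1 ::ₘ toM (a, b, c, d, e, f) := by
  simp only [toM, Multiset.replicate_succ, Multiset.cons_add]

theorem toM2 (a b c d e f : ℕ) : toM (a, b + 1, c, d, e, f) = 2 ::ₘ toM (a, b, c, d, e, f) := by
  simp only [toM, Multiset.replicate_succ, Multiset.cons_add, Multiset.add_cons]

theorem toM3 (a b c d e f : ℕ) : toM (a, b, c + 1, d, e, f) = 3 ::ₘ toM (a, b, c, d, e, f) := by
  simp only [toM, Multiset.replicate_succ, Multiset.cons_add, Multiset.add_cons]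

theorem toM4 (a b c d e f : ℕ) : toM (a, b, c, d + 1, e, f) = 4 ::ₘ toM (a, b, c, d, e, f) := by
  simp only [toM, Multiset.replicate_succ, Multiset.cons_add, Multiset.add_cons]

theorem toM5 (a b c d e f : ℕ) : toM (a, b, c, d, e + 1, f) = 5 ::ₘ toM (a, b, c, d, e, f) := by
  simp only [toM, Multiset.replicate_succ, Multiset.cons_add, Multiset.add_cons]

theorem toM6 (a b c d e f : ℕ) : toM (a, b, c, d, e, f + 1) = 6 ::ₘ toM (a, b, c, d, e, f) := by
  simp only [toM, Multiset.replicate_succ, Multiset.add_cons]

theorem filter_toM (s : St) : (toM s).filter (0 < ·) = toM s :=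
  Multiset.filter_eq_self.2 (pos_toM s)

theorem filter_replicate_zero (n : ℕ) : (Multiset.replicate n 0).filter (0 < ·) = 0 := by
  rw [Multiset.filter_eq_nil]
  intro a ha
  rw [Multiset.eq_of_mem_replicate ha]
  exact lt_irrefl 0

theorem filter_replicate_pos {n j : ℕ} (hj : 0 < j) :
    (Multiset.replicate n j).filter (0 < ·) = Multiset.replicate n j := by
  rw [Multiset.filter_eq_self]
  intro a ha
  rw [Multiset.eq_of_mem_replicate ha]
  exact hj

theorem beq_succ_zero (n : ℕ) : Nat.beq (n + 1) 0 = false := rfl

theorem allmove_toM (a b c d e f : ℕ) :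
    ((toM (a, b, c, d, e, f)).map (· - 1)).filter (0 < ·) = toM (b, c, d, e, f, 0) := by
  simp only [toM, Multiset.map_add, Multiset.map_replicate, Multiset.filter_add]
  rw [show (1 : ℕ) - 1 = 0 from rfl, filter_replicate_zero, show (2 : ℕ) - 1 = 1 from rfl,
    show (3 : ℕ) - 1 = 2 from rfl, show (4 : ℕ) - 1 = 3 from rfl, show (5 : ℕ) - 1 = 4 from rfl,
    show (6 : ℕ) - 1 = 5 from rfl, filter_replicate_pos (by norm_num),
    filter_replicate_pos (by norm_num), filter_replicate_pos (by norm_num),
    filter_replicate_pos (by norm_num), filter_replicate_pos (by norm_num)]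
  simp

/-- all moves from `toM s` are listed by `mvs s` -/
theorem mem_mvs_of_move {s : St} {M' : Multiset ℕ} (h : Move (toM s) M') :
    ∃ t ∈ mvs s, M' = toM t := by
  obtain ⟨a, b, c, d, e, f⟩ := s
  rcases h with ⟨x, hx, rfl⟩ | ⟨h0, rfl⟩
  · have hx' := hx
    simp only [toM, Multiset.mem_add, Multiset.mem_replicate] at hx'
    rcases hx' with ((((⟨h, rfl⟩ | ⟨h, rfl⟩) | ⟨h, rfl⟩) | ⟨h, rfl⟩) | ⟨h, rfl⟩) | ⟨h, rfl⟩
    · obtain ⟨a, rfl⟩ := Nat.exists_eq_succ_of_ne_zero h
      refine ⟨(a, b, c, d, e, f), by simp [mvs, beq_succ_zero], ?_⟩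
      rw [Nat.succ_eq_add_one, toM1, Multiset.erase_cons_head,
        Multiset.filter_cons_of_neg _ (by norm_num), filter_toM]
    · obtain ⟨b, rfl⟩ := Nat.exists_eq_succ_of_ne_zero h
      refine ⟨(a + 1, b, c, d, e, f), by simp [mvs, beq_succ_zero], ?_⟩
      rw [Nat.succ_eq_add_one, toM2, Multiset.erase_cons_head, toM1,
        Multiset.filter_cons_of_pos _ (by norm_num), filter_toM]
    · obtain ⟨c, rfl⟩ := Nat.exists_eq_succ_of_ne_zero h
      refine ⟨(a, b + 1, c, d, e, f), by simp [mvs, beq_succ_zero], ?_⟩
      rw [Nat.succ_eq_add_one, toM3, Multiset.erase_cons_head, toM2,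
        Multiset.filter_cons_of_pos _ (by norm_num), filter_toM]
    · obtain ⟨d, rfl⟩ := Nat.exists_eq_succ_of_ne_zero h
      refine ⟨(a, b, c + 1, d, e, f), by simp [mvs, beq_succ_zero], ?_⟩
      rw [Nat.succ_eq_add_one, toM4, Multiset.erase_cons_head, toM3,
        Multiset.filter_cons_of_pos _ (by norm_num), filter_toM]
    · obtain ⟨e, rfl⟩ := Nat.exists_eq_succ_of_ne_zero h
      refine ⟨(a, b, c, d + 1, e, f), by simp [mvs, beq_succ_zero], ?_⟩
      rw [Nat.succ_eq_add_one, toM5, Multiset.erase_cons_head, toM4,
        Multiset.filter_cons_of_pos _ (by norm_num), filter_toM]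
    · obtain ⟨f, rfl⟩ := Nat.exists_eq_succ_of_ne_zero h
      refine ⟨(a, b, c, d, e + 1, f), by simp [mvs, beq_succ_zero], ?_⟩
      rw [Nat.succ_eq_add_one, toM6, Multiset.erase_cons_head, toM5,
        Multiset.filter_cons_of_pos _ (by norm_num), filter_toM]
  · have hne : a + b + c + d + e + f ≠ 0 := fun h => h0 (toM_eq_zero h)
    refine ⟨(b, c, d, e, f, 0), ?_, allmove_toM a b c d e f⟩
    have : Nat.beq (a + b + c + d + e + f) 0 = false := by
      cases h' : Nat.beq (a + b + c + d + e + f) 0
      · rfl
      · exact absurd (Nat.eq_of_beq_eq_true h') hne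
    simp only [mvs, this, cond_false, List.mem_append, List.mem_singleton, or_true]

/-- the listed positions are reachable in one move -/
theorem move_of_mem_mvs {s t : St} (h : t ∈ mvs s) : Move (toM s) (toM t) := by
  obtain ⟨a, b, c, d, e, f⟩ := s
  simp only [mvs, List.mem_append] at h
  rcases h with h | h | h | h | h | h | h
  · rcases a with _ | a
    · simp at h
    · simp [beq_succ_zero] at h
      subst h
      refine Or.inl ⟨1, by rw [toM1]; exact Multiset.mem_cons_self _ _, ?_⟩
      rw [toM1, Multiset.erase_cons_head, Multiset.filter_cons_of_neg _ (by norm_num), filter_toM]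
  · rcases b with _ | b
    · simp at h
    · simp [beq_succ_zero] at h
      subst h
      refine Or.inl ⟨2, by rw [toM2]; exact Multiset.mem_cons_self _ _, ?_⟩
      rw [toM2, Multiset.erase_cons_head, toM1, Multiset.filter_cons_of_pos _ (by norm_num),
        filter_toM]
  · rcases c with _ | c
    · simp at h
    · simp [beq_succ_zero] at h
      subst h
      refine Or.inl ⟨3, by rw [toM3]; exact Multiset.mem_cons_self _ _, ?_⟩
      rw [toM3, Multiset.erase_cons_head, toM2, Multiset.filter_cons_of_pos _ (by norm_num),
        filter_toM]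
  · rcases d with _ | d
    · simp at h
    · simp [beq_succ_zero] at h
      subst h
      refine Or.inl ⟨4, by rw [toM4]; exact Multiset.mem_cons_self _ _, ?_⟩
      rw [toM4, Multiset.erase_cons_head, toM3, Multiset.filter_cons_of_pos _ (by norm_num),
        filter_toM]
  · rcases e with _ | e
    · simp at h
    · simp [beq_succ_zero] at h
      subst h
      refine Or.inl ⟨5, by rw [toM5]; exact Multiset.mem_cons_self _ _, ?_⟩
      rw [toM5, Multiset.erase_cons_head, toM4, Multiset.filter_cons_of_pos _ (by norm_num),
        filter_toM]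
  · rcases f with _ | f
    · simp at h
    · simp [beq_succ_zero] at h
      subst h
      refine Or.inl ⟨6, by rw [toM6]; exact Multiset.mem_cons_self _ _, ?_⟩
      rw [toM6, Multiset.erase_cons_head, toM5, Multiset.filter_cons_of_pos _ (by norm_num),
        filter_toM]
  · cases h' : Nat.beq (a + b + c + d + e + f) 0 with
    | true =>
      rw [h'] at h
      simp at h
    | false =>
      rw [h'] at h
      simp only [cond_false, List.mem_singleton] at h
      subst h
      refine Or.inr ⟨fun h0 => ?_, (allmove_toM a b c d e f).symm⟩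
      have h1 := congrArg Multiset.card h0
      rw [card_toM, Multiset.card_zero] at h1
      rw [h1] at h'
      exact absurd h' (by decide)

theorem cert_isP (n : ℕ) : ∀ m, cert.mem m = true → (toM (dec m)).sum = n → IsP (toM (dec m)) := by
  induction n using Nat.strong_induction_on with
  | _ n ih =>
    intro m hm hn
    rw [isP_iff (pos_toM _)]
    intro M' hM' hP
    obtain ⟨t, ht, rfl⟩ := mem_mvs_of_move hM'
    have h1 := NatTree.of_all certOk_true hm
    rw [List.all_eq_true] at h1
    obtain ⟨u, hu, h2⟩ := List.any_eq_true.1 (h1 t ht)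
    have hmv := move_of_mem_mvs hu
    unfold inCert at h2
    rw [Bool.and_eq_true] at h2
    have h3 := same_eq h2.2
    have s1 := move_sum (pos_toM _) hM'
    have s2 := move_sum (pos_toM _) hmv
    have h4 : IsP (toM (dec (enc u))) :=
      ih (toM (dec (enc u))).sum (by rw [h3]; omega) _ h2.1 rfl
    rw [h3] at h4
    exact (isP_iff (pos_toM t)).1 hP _ hmv h4

/-- **Theorem.** The position with seven piles of size 5 and five piles of size 6 (so `k = 12`
piles, each larger than `⌈k / 3⌉ = 4`) is not a P-position, although its number of odd piles lies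
in `S_12`.  So the proposed description fails. -/
theorem result :
    (¬ IsP (Multiset.replicate 7 5 + Multiset.replicate 5 6) ∧
      InS 12 (oddPiles (Multiset.replicate 7 5 + Multiset.replicate 5 6))) ∧
    ¬ ∀ k : ℕ, 3 ≤ k → ∀ M : Multiset ℕ, M.card = k → (∀ a ∈ M, (k + 2) / 3 < a) →
      (IsP M ↔ InS k (oddPiles M)) := by
  have e : toM (0, 0, 0, 0, 7, 5) = Multiset.replicate 7 5 + Multiset.replicate 5 6 := by
    simp [toM]
  have h1 : ¬ IsP (Multiset.replicate 7 5 + Multiset.replicate 5 6) := by
    rw [← e, isP_iff (pos_toM _)]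
    intro h
    have hmem : (0, 0, 0, 7, 5, 0) ∈ mvs (0, 0, 0, 0, 7, 5) := by decide
    refine h _ (move_of_mem_mvs hmem) ?_
    have h2 := cert_isP _ (enc (0, 0, 0, 7, 5, 0)) (by decide +kernel) rfl
    exact h2
  have hodd : oddPiles (Multiset.replicate 7 5 + Multiset.replicate 5 6) = 7 := by
    decide +kernel
  have h2 : InS 12 (oddPiles (Multiset.replicate 7 5 + Multiset.replicate 5 6)) := by
    rw [hodd]
    refine ⟨by norm_num, ?_⟩
    rw [if_neg (by decide)]
    exact Or.inr ⟨by decide, by norm_num⟩
  refine ⟨⟨h1, h2⟩, fun h => h1 ((h 12 (by norm_num) _ (by simp) ?_).2 h2)⟩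
  intro a ha
  rw [Multiset.mem_add, Multiset.mem_replicate, Multiset.mem_replicate] at ha
  omega

end Pool.Agent.Results.MP_b8aaf5_co.TwelvePiles
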